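import Pool.Agent.Q80.AC.Stm

/-! Job AC-LEN: length functions. -/

open Topology Filter Set
open scoped Pointwise

noncomputable section

namespace Pool.Agent.Q178.AC

open Pool.Agent.Q80.AC

variable {H : Type} [Group H] [TopologicalSpace H] [IsTopologicalGroup H] [LocallyCompactSpace H]
  [SecondCountableTopology H] [T2Space H]

/-- the length function of `f` -/
def Lf (f : H → ℝ) (g : H) : ℝ := ⨆ x, |f (g⁻¹ * x) - f x|

section
variable {f : H → ℝ} (hf : ∀ x, f x ∈ Icc (0 : ℝ) 1)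
include hf

omit [Group H] [TopologicalSpace H] [IsTopologicalGroup H] [LocallyCompactSpace H]
  [SecondCountableTopology H] [T2Space H] in
theorem abs_le_one (a b : H) : |f a - f b| ≤ 1 := by
  have h1 := hf a
  have h2 := hf b
  rw [mem_Icc] at h1 h2
  rw [abs_le]
  constructor <;> linarith

omit [TopologicalSpace H] [IsTopologicalGroup H] [LocallyCompactSpace H]
  [SecondCountableTopology H] [T2Space H] in
theorem le_Lf (g x : H) : |f (g⁻¹ * x) - f x| ≤ Lf f g :=
  le_ciSup (f := fun x => |f (g⁻¹ * x) - f x|) ⟨1, by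
    rintro _ ⟨y, rfl⟩
    exact abs_le_one hf _ _⟩ x

omit [TopologicalSpace H] [IsTopologicalGroup H] [LocallyCompactSpace H]
  [SecondCountableTopology H] [T2Space H] in
theorem Lf_nonneg (g : H) : 0 ≤ Lf f g := (abs_nonneg _).trans (le_Lf hf g 1)

omit [TopologicalSpace H] [IsTopologicalGroup H] [LocallyCompactSpace H]
  [SecondCountableTopology H] [T2Space H] in
theorem Lf_mul (g h : H) : Lf f (g * h) ≤ Lf f g + Lf f h := by
  apply ciSup_le
  intro x
  have h1 := le_Lf hf g x
  have h2 := le_Lf hf h (g⁻¹ * x)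
  rw [mul_inv_rev, mul_assoc]
  have e : f (h⁻¹ * (g⁻¹ * x)) - f x =
      (f (g⁻¹ * x) - f x) + (f (h⁻¹ * (g⁻¹ * x)) - f (g⁻¹ * x)) := by ring
  rw [e]
  exact (abs_add_le _ _).trans (add_le_add h1 h2)

omit [TopologicalSpace H] [IsTopologicalGroup H] [LocallyCompactSpace H]
  [SecondCountableTopology H] [T2Space H] in
theorem Lf_inv (h : H) : Lf f h⁻¹ ≤ Lf f h := by
  apply ciSup_le
  intro x
  have h1 := le_Lf hf h (h * x)
  rw [inv_inv]
  rw [inv_mul_cancel_left] at h1
  rwa [abs_sub_comm]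

omit [SecondCountableTopology H] [T2Space H] in
theorem Lf_one (hc : Continuous f) (hs : HasCompactSupport f) (ε : ℝ) (hε : 0 < ε) :
    ∀ᶠ g in 𝓝 (1 : H), Lf f g ≤ ε := by
  obtain ⟨K, hK, hK1⟩ := exists_compact_mem_nhds (1 : H)
  set S : Set H := tsupport f with hS
  have hSc : IsCompact S := hs
  set C : Set H := K * S ∪ S with hC
  have hCc : IsCompact C := (hK.mul hSc).union hSc
  have h1 : ∀ y ∈ C, ∀ᶠ z : H × H in 𝓝 ((1 : H), y), |f (z.1⁻¹ * z.2) - f z.2| ≤ ε := by
    intro y _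
    have hcont : Continuous fun z : H × H => |f (z.1⁻¹ * z.2) - f z.2| := by fun_prop
    have h2 := hcont.tendsto ((1 : H), y)
    have h3 : |f ((1 : H)⁻¹ * y) - f y| = 0 := by simp
    simp only [h3] at h2
    exact h2.eventually (ge_mem_nhds hε)
  have h2 := hCc.eventually_forall_of_forall_eventually
    (P := fun a b : H => |f (a⁻¹ * b) - f b| ≤ ε) h1
  filter_upwards [h2, hK1] with g hg hgK
  apply ciSup_le
  intro x
  by_cases hx : x ∈ C
  · exact hg x hx
  · have hx1 : f x = 0 := by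
      by_contra h0
      exact hx (Or.inr (subset_tsupport f h0))
    have hx2 : f (g⁻¹ * x) = 0 := by
      by_contra h0
      apply hx
      left
      refine ⟨g, hgK, g⁻¹ * x, subset_tsupport f h0, ?_⟩
      simp
    rw [hx1, hx2]
    simp [hε.le]

omit [SecondCountableTopology H] [T2Space H] in
theorem Lf_cont (hc : Continuous f) (hs : HasCompactSupport f) : Continuous (Lf f) := by
  rw [continuous_iff_continuousAt]
  intro g
  rw [ContinuousAt, Metric.tendsto_nhds]
  intro ε hε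
  have h1 := Lf_one hf hc hs (ε / 2) (by linarith)
  have h2 : Tendsto (fun g' : H => g⁻¹ * g') (𝓝 g) (𝓝 1) := by
    have h3 : Continuous fun g' : H => g⁻¹ * g' := by fun_prop
    have h4 := h3.tendsto g
    rwa [inv_mul_cancel] at h4
  filter_upwards [h2.eventually h1] with g' hg'
  have h3 := Lf_mul hf g (g⁻¹ * g')
  rw [mul_inv_cancel_left] at h3
  have h4 := Lf_mul hf g' (g'⁻¹ * g)
  rw [mul_inv_cancel_left] at h4
  have h5 := Lf_inv hf (g⁻¹ * g')
  rw [mul_inv_rev, inv_inv] at h5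
  rw [Real.dist_eq, abs_lt]
  constructor <;> linarith

end

theorem len : S_LEN := by
  intro H _ _ _ _ _ _
  obtain ⟨x, hx⟩ := (𝓝 (1 : H)).exists_antitone_basis
  have hex : ∀ j, ∃ f : C(H, ℝ), f 1 = 1 ∧ (∀ y, y ∉ x j → f y = 0) ∧ HasCompactSupport f ∧
      ∀ y, f y ∈ Icc (0 : ℝ) 1 := by
    intro j
    have h1 : x j ∈ 𝓝 (1 : H) := hx.1.mem_of_mem trivial
    obtain ⟨f, hf1, hf0, hfc, hfI⟩ := exists_continuous_one_zero_of_isCompact
      (isCompact_singleton (x := (1 : H))) (isOpen_interior (s := x j)).isClosed_compl (by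
        rw [Set.disjoint_singleton_left, Set.notMem_compl_iff]
        exact mem_interior_iff_mem_nhds.2 h1)
    exact ⟨f, hf1 rfl, fun y hy => hf0 fun h => hy (interior_subset h), hfc, hfI⟩
  choose f hf1 hf0 hfc hfI using hex
  refine ⟨fun j => Lf (f j), fun j => Lf_cont (hfI j) (f j).continuous (hfc j), ?_, ?_, ?_, ?_⟩
  · intro j y
    refine ⟨Lf_nonneg (hfI j) y, ?_⟩
    refine (ciSup_le fun z => abs_le_one (hfI j) _ _).trans (by norm_num)
  · intro j
    simp [Lf]
  · intro j a b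
    exact Lf_mul (hfI j) a b
  · intro W hW
    obtain ⟨j, -, hj⟩ := hx.1.mem_iff.1 hW
    refine ⟨j, fun y hy => ?_⟩
    have h1 := le_Lf (hfI j) y y
    rw [inv_mul_cancel, hf1, hf0 j y (fun h => hy (hj h))] at h1
    simpa using h1

end Pool.Agent.Q178.AC
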