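import Pool.Agent.Q80.AC.Stm

/-! Job AC-TRL: continuity of translations in `L¹`. -/

open MeasureTheory Topology Filter
open scoped ENNReal NNReal

noncomputable section

namespace Pool.Agent.Q178.AC

open Pool.Agent.Q80.AC

variable {H : Type} [Group H] [TopologicalSpace H] [IsTopologicalGroup H] [LocallyCompactSpace H]
  [SecondCountableTopology H] [T2Space H] [MeasurableSpace H] [BorelSpace H]

theorem transl_cont (m : Measure H) [m.IsHaarMeasure] (G : H → ℝ) (hG : Integrable G m)
    (e : ℝ) (he : 0 < e) : ∃ V ∈ 𝓝 (1 : H), ∀ s ∈ V, ∫ x, |G (s⁻¹ * x) - G x| ∂m ≤ e := by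
  have hc : Continuous fun s : H => (⟨fun x => s⁻¹ * x, by fun_prop⟩ : C(H, H)) := by
    refine ContinuousMap.continuous_of_continuous_uncurry _ ?_
    simp only [Function.uncurry_def]
    exact (continuous_fst.inv.mul continuous_snd)
  have hcont : Continuous fun s : H => Lp.compMeasurePreserving (fun x => s⁻¹ * x)
      (measurePreserving_mul_left m s⁻¹) (hG.toL1 G) :=
    (continuous_const (y := hG.toL1 G)).compMeasurePreservingLp hc
      (fun s => measurePreserving_mul_left m s⁻¹) (by simp)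
  have hnorm : ∀ s : H, ‖Lp.compMeasurePreserving (fun x => s⁻¹ * x)
      (measurePreserving_mul_left m s⁻¹) (hG.toL1 G) - hG.toL1 G‖ =
      ∫ x, |G (s⁻¹ * x) - G x| ∂m := by
    intro s
    rw [L1.norm_eq_integral_norm]
    apply integral_congr_ae
    have h1 := Lp.coeFn_sub (Lp.compMeasurePreserving (fun x => s⁻¹ * x)
      (measurePreserving_mul_left m s⁻¹) (hG.toL1 G)) (hG.toL1 G)
    have h2 := Lp.coeFn_compMeasurePreserving (hG.toL1 G) (measurePreserving_mul_left m s⁻¹)
    have h3 := hG.coeFn_toL1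
    have h4 := (measurePreserving_mul_left m s⁻¹).quasiMeasurePreserving.ae_eq_comp h3
    filter_upwards [h1, h2, h3, h4] with x h1 h2 h3 h4
    rw [h1, Pi.sub_apply, h2, h3, h4]
    simp [Real.norm_eq_abs]
  have h1 : Lp.compMeasurePreserving (fun x => (1 : H)⁻¹ * x)
      (measurePreserving_mul_left m (1 : H)⁻¹) (hG.toL1 G) = hG.toL1 G := by
    have h2 := hnorm 1
    have h3 : ∫ x, |G ((1 : H)⁻¹ * x) - G x| ∂m = 0 := by simp
    rw [h3, norm_eq_zero, sub_eq_zero] at h2
    exact h2
  have h2 := hcont.tendsto 1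
  rw [h1, Metric.tendsto_nhds] at h2
  have h3 := h2 e he
  refine ⟨_, h3, fun s hs => ?_⟩
  have hs' : dist (Lp.compMeasurePreserving (fun x => s⁻¹ * x)
      (measurePreserving_mul_left m s⁻¹) (hG.toL1 G)) (hG.toL1 G) < e := hs
  rw [dist_eq_norm, hnorm] at hs'
  exact hs'.le

theorem trl : S_TRL := by
  intro H _ _ _ _ _ _ _ _ m _ ν _ hν e he
  set G : H → ℝ := fun x => (ν.rnDeriv m x).toReal with hGd
  have hGm : Measurable G := (Measure.measurable_rnDeriv ν m).ennreal_toReal
  have hG : Integrable G m := Measure.integrable_toReal_rnDeriv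
  have hint : ∀ f : H → ℝ, ∫ x, f x ∂ν = ∫ x, G x * f x ∂m := by
    intro f
    rw [← integral_rnDeriv_smul hν]
    rfl
  obtain ⟨V, hV, hVe⟩ := transl_cont m G hG e he
  refine ⟨V, hV, fun ρ hρ hρV f hf hf1 => ?_⟩
  have hfb : ∀ (κ : Measure H) [IsFiniteMeasure κ], Integrable f κ := by
    intro κ _
    exact Integrable.of_bound hf.aestronglyMeasurable 1 (ae_of_all _ fun x => by
      rw [Real.norm_eq_abs]; exact hf1 x)
  have : IsFiniteMeasure (ρ ∗ₘ ν) := by
    unfold Measure.mconv
    infer_instance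
  rw [integral_mconv (hfb _)]
  have hprod : Integrable (fun p : H × H => f (p.1 * p.2)) (ρ.prod ν) :=
    Integrable.of_bound (hf.comp measurable_mul).aestronglyMeasurable 1 (ae_of_all _ fun x => by
      rw [Real.norm_eq_abs]; exact hf1 _)
  have hI : Integrable (fun s => ∫ x, f (s * x) ∂ν) ρ := hprod.integral_prod_left
  have e1 : ∫ x, ∫ y, f (x * y) ∂ν ∂ρ - ∫ x, f x ∂ν =
      ∫ s, ((∫ x, f (s * x) ∂ν) - ∫ x, f x ∂ν) ∂ρ := by
    rw [integral_sub hI (integrable_const _)]
    simp
  rw [e1]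
  have hae : ∀ᵐ s ∂ρ, ‖(∫ x, f (s * x) ∂ν) - ∫ x, f x ∂ν‖ ≤ e := by
    have h1 : ∀ᵐ s ∂ρ, s ∈ V := hρV
    filter_upwards [h1] with s hs
    rw [hint, hint]
    have h2 : ∫ x, G x * f (s * x) ∂m = ∫ x, G (s⁻¹ * x) * f x ∂m := by
      have h3 := integral_mul_left_eq_self (μ := m) (fun x => G (s⁻¹ * x) * f x) s
      rw [← h3]
      simp
    rw [h2]
    have hGs : Integrable (fun x => G (s⁻¹ * x)) m := hG.comp_mul_left s⁻¹
    have i1 : Integrable (fun x => G (s⁻¹ * x) * f x) m := by
      refine hGs.mul_bdd (c := 1) hf.aestronglyMeasurable ?_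
      exact ae_of_all _ fun x => by rw [Real.norm_eq_abs]; exact hf1 x
    have i2 : Integrable (fun x => G x * f x) m := by
      refine hG.mul_bdd (c := 1) hf.aestronglyMeasurable ?_
      exact ae_of_all _ fun x => by rw [Real.norm_eq_abs]; exact hf1 x
    rw [← integral_sub i1 i2]
    refine (norm_integral_le_integral_norm _).trans ((integral_mono_of_nonneg (ae_of_all _
      fun x => norm_nonneg _) (hGs.sub hG).abs (ae_of_all _ fun x => ?_)).trans (hVe s hs))
    simp only [Pi.sub_apply]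
    rw [← sub_mul, norm_mul, Real.norm_eq_abs, Real.norm_eq_abs]
    exact mul_le_of_le_one_right (abs_nonneg _) (hf1 x)
  have h5 := norm_integral_le_of_norm_le_const hae
  simpa using h5

end Pool.Agent.Q178.AC
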